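import Pool.Agent.K7.H30.LP.Forest

/-!
Locally planar graphs on closed orientable surfaces which are even-faced or triangle-free have
Alon-Tarsi number at most 4, and at most 3 after the removal of the edges of a suitable forest.

Embeddings of a finite simple graph `G` in closed orientable surfaces are described by rotation
systems `R` (`Rotation G`); `R.twiceGenus` is twice the sum of the genera of the components,
`R.EvenFaced` says that all facial walks have even length, and `R.Contractible p` says that the
closed walk `p` is null-homotopic (homotopies are generated by deleting backtracks and facial
walks). `AlonTarsiLE G k` says that the graph polynomial `∏ (x_u - x_v)` over the edges `uv` of `G`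
has a monomial with a nonzero coefficient in which all exponents are less than `k`; by Alon and
Tarsi (and Schauz) this implies that `G` is `k`-list colourable (and `k`-paintable).

Proof. Structure theorem (`peel`): every nonempty set `S` of vertices contains a vertex of degree
at most 3 in `G[S]` or an induced 4-cycle of vertices of degree at most 4 in `G[S]`. Indeed
otherwise all degrees in `G[S]` are at least 4. Counting the regions of `G[S]` by linear algebra
over the field with two elements (Euler's formula) one finds, if `S` has at least `82 g` vertices, a
region bounded by a 4-cycle whose four vertices have degree 4. If `S` has fewer than `82 g`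
vertices, then all cycles of `G[S]` are contractible, hence boundaries, and Euler's formula of the
plane gives a vertex of degree at most 3. The vertices and the 4-cycles are added one after the
other; the coefficient of a suitable monomial is multiplied by `±1` and by `±2`. For the second
part every new vertex loses one of its edges to the vertices which are already there.
-/

namespace Pool.Agent.Results.MP_caf32e_co.AlonTarsiFour

open Pool.Agent.K7.H30.LP

universe u

/-- Let `G` be a finite simple graph embedded in a closed orientable surface of genus at most `g`.
Suppose that all facial walks have even length or that `G` has no triangles, and that all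
noncontractible cycles have length at least `82 g + 4`. Then `G` has Alon-Tarsi number at most 4
(hence is 4-list colourable), and there is a forest `F` in `G` such that `G` without the edges of
`F` has Alon-Tarsi number at most 3 (hence is 3-list colourable). -/
theorem result (g : ℕ) (V : Type u) [Fintype V] (G : SimpleGraph V) (R : Rotation G)
    (genus_le : R.twiceGenus ≤ 2 * g) (even_faced : R.EvenFaced ∨ G.CliqueFree 3)
    (locally_planar : ∀ (v : V) (p : G.Walk v v), p.IsCycle → ¬ R.Contractible p →
      82 * g + 4 ≤ p.length) :
    (AlonTarsiLE G 4 ∧ ListColourable G 4) ∧
    ∃ F : SimpleGraph V, F ≤ G ∧ F.IsAcyclic ∧
      AlonTarsiLE (G \ F) 3 ∧ ListColourable (G \ F) 3 := by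
  have hT : NoTriangle G := by
    rcases even_faced with h | h
    · refine noTriangle R h fun v p hp hlt => ?_
      by_contra hcon
      have := locally_planar v p hp hcon
      omega
    · intro a b c hab hbc hca
      classical
      exact h {a, b, c} (SimpleGraph.is3Clique_triple_iff.2 ⟨hab, hca.symm, hbc⟩)
  have hp := peel R hT genus_le le_rfl fun v p hp hlt => by
    by_contra hcon
    have := locally_planar v p hp hcon
    omega
  have h4 := alonTarsiLE_of_peel hp
  obtain ⟨F, h1, h2, h3⟩ := forest_of_peel hp
  exact ⟨⟨h4, listColourable_of_alonTarsi h4⟩, F, h1, h2, h3, listColourable_of_alonTarsi h3⟩

end Pool.Agent.Results.MP_caf32e_co.AlonTarsiFour
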